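import Pool.Agent.N556.CQ.Stm

/-!
# Project CQ: rotating two adjacent sides of a parallelogram
-/

set_option autoImplicit false

namespace Pool.Agent.N607.CQ

open Pool.Agent.N556.CQ MeasureTheory Set

theorem rot (h : S_QUAD) : S_ROT := by
  intro K o e f k hef hk hk1 hK
  have hD : (0 : ℝ) < 1 + k ^ 2 := by positivity
  obtain ⟨α, β, hα, hβ⟩ : ∃ α β : ℝ, α = (k - 1) / (1 + k ^ 2) ∧ β = (1 + k) / (1 + k ^ 2) :=
    ⟨_, _, rfl, rfl⟩
  have h3 : β = 1 - k * α := by
    rw [hα, hβ]
    field_simp
    ring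
  have h4 : α = -1 + k * β := by
    rw [hα, hβ]
    field_simp
    ring
  have h5 : 1 - α = (k ^ 2 - k + 2) / (1 + k ^ 2) := by
    rw [hα]
    field_simp
    ring
  have h6 : 1 + β = (k ^ 2 + k + 2) / (1 + k ^ 2) := by
    rw [hβ]
    field_simp
    ring
  have h5' : 0 < 1 - α := by
    rw [h5]
    apply div_pos _ hD
    nlinarith
  have h6' : 0 < 1 + β := by
    rw [h6]
    apply div_pos _ hD
    nlinarith
  have h7 : 0 < 2 - k := by linarith
  have h8 : 0 < 2 + k := by linarith
  have h9 : β - 1 + k = k * (1 - α) := by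
    rw [h3]
    ring
  have h9' : 0 ≤ β - 1 + k := by
    rw [h9]
    positivity
  set a : P := (o.1 + e.1 - f.1, o.2 + e.2 - f.2) with ha
  set b : P := (o.1 + e.1 + (1 - k) * f.1, o.2 + e.2 + (1 - k) * f.2) with hb
  set c : P := (o.1 + α * e.1 + β * f.1, o.2 + α * e.2 + β * f.2) with hc
  set d : P := (o.1 - (1 + k) * e.1 - f.1, o.2 - (1 + k) * e.2 - f.2) with hd
  have i1 : cr (b - a) (c - a) = (2 - k) * (1 - α) * cr e f := by
    simp only [cr, ha, hb, hc, Prod.fst_sub, Prod.snd_sub]
    ring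
  have i2 : cr (c - a) (d - a) = (1 + β) * (2 + k) * cr e f := by
    simp only [cr, ha, hd, hc, Prod.fst_sub, Prod.snd_sub]
    ring
  have i3 : cr (b - a) (d - a) = (2 - k) * (2 + k) * cr e f := by
    simp only [cr, ha, hd, hb, Prod.fst_sub, Prod.snd_sub]
    ring
  have i4 : cr (c - b) (d - b) =
      ((1 - α) * (2 - k) + (β - 1 + k) * (2 + k)) * cr e f := by
    simp only [cr, hc, hd, hb, Prod.fst_sub, Prod.snd_sub]
    ring
  have i5 : cr (c - a) (d - b) = ((1 - α) * (2 - k) + (1 + β) * (2 + k)) * cr e f := by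
    simp only [cr, ha, hc, hd, hb, Prod.fst_sub, Prod.snd_sub]
    ring
  obtain ⟨hvol, hin⟩ := h a b c d (by rw [i1]; positivity) (by rw [i2]; positivity)
    (by rw [i3]; positivity) (by rw [i4]; positivity) (by rw [i5]; positivity)
  refine ⟨cr (c - a) (d - b) / 2, ?_, a, b, c, d, ?_, hvol⟩
  · have h10 : (1 - α) * (2 - k) + (1 + β) * (2 + k) = 2 * ((4 + 3 * k ^ 2) / (1 + k ^ 2)) := by
      rw [h5, h6]
      field_simp
      ring
    have h11 : (4 + 3 * k ^ 2) / (1 + k ^ 2) < 4 := by
      rw [div_lt_iff₀ hD]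
      nlinarith [pow_pos hk 2]
    rw [i5, h10]
    nlinarith [mul_lt_mul_of_pos_right h11 hef]
  · intro x hx
    obtain ⟨k1, k2, k3, k4⟩ := hK x hx
    refine hin x ?_ ?_ ?_ ?_
    · have j : cr (b - a) (x - a) = (2 - k) * (cr e f - cr (x - o) f) := by
        simp only [cr, ha, hb, Prod.fst_sub, Prod.snd_sub]
        ring
      rw [j]
      exact mul_nonneg h7.le (by linarith)
    · have j : cr (c - b) (x - b) = (β - 1 + k) * (cr e f - cr (x - o) f) -
          (1 - α) * (cr e (x - o) - (1 - k) * cr e f) := by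
        simp only [cr, hc, hb, Prod.fst_sub, Prod.snd_sub]
        ring
      have j2 : cr (c - b) (x - b) = (1 - α) * (cr e f - k * cr (x - o) f - cr e (x - o)) := by
        rw [j, h9]
        ring
      rw [j2]
      exact mul_nonneg h5'.le (by linarith)
    · have j : cr (d - c) (x - c) = (-1 - k - α) * (cr e (x - o) - β * cr e f) +
          (1 + β) * (cr (x - o) f - α * cr e f) := by
        simp only [cr, hc, hd, Prod.fst_sub, Prod.snd_sub]
        ring
      have j1 : -1 - k - α = -k * (1 + β) := by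
        rw [h4]
        ring
      have j2 : cr (d - c) (x - c) = (1 + β) * (cr (x - o) f - k * cr e (x - o) +
          (k * β - α) * cr e f) := by
        rw [j, j1]
        ring
      have j3 : k * β - α = 1 := by linarith
      rw [j2, j3]
      exact mul_nonneg h6'.le (by linarith)
    · have j : cr (a - d) (x - d) = (2 + k) * (cr e (x - o) + cr e f) := by
        simp only [cr, ha, hd, Prod.fst_sub, Prod.snd_sub]
        ring
      rw [j]
      exact mul_nonneg h8.le (by linarith)

end Pool.Agent.N607.CQ
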